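import Pool.Agent.H69.LVP.LY

/-! Row LG of board lvp_modules. -/

set_option autoImplicit false

open Finset MeasureTheory

namespace Pool.Agent.H69.LVP

open Pool.Agent.H24.CL Pool.Agent.H24.LV

lemma int_f (k N p : ℕ) : Integrable (fun a : X k => ‖f N a‖ ^ p) volume := by
  refine Integrable.of_bound (C := (N : ℝ) ^ p)
    ((cont_f k N).norm.pow _).aestronglyMeasurable (Filter.Eventually.of_forall fun a => ?_)
  rw [Real.norm_of_nonneg (by positivity)]
  exact pow_le_pow_left₀ (norm_nonneg _) (norm_f_le N a) _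

lemma X_univ (k : ℕ) : (volume : Measure (X k)).real Set.univ = 1 := by
  rw [Measure.real, ← Set.pi_univ Set.univ, volume_pi_pi]
  simp

theorem pf_LG (hWT : L_WT) (hLY : M_LY) : M_LG := by
  intro k hk ε hε
  obtain ⟨CW, hCW, HW⟩ := hWT k hk
  set K : ℕ := KN k with hK
  have hlog2 : 0 < Real.log 2 := Real.log_pos (by norm_num)
  set A : ℝ := 2 ^ (2 * K) * CW with hA
  have hA0 : 0 < A := by positivity
  set δ : ℝ := min (1 / 4) (ε * Real.log 2 / A) with hδ
  have hd0 : 0 < δ := lt_min (by norm_num) (by positivity)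
  have hd1 : δ ≤ 1 / 4 := min_le_left _ _
  have hd2 : δ / Real.log 2 * A ≤ ε := by
    have h : δ ≤ ε * Real.log 2 / A := min_le_right _ _
    rw [le_div_iff₀ hA0] at h
    rw [div_mul_eq_mul_div, div_le_iff₀ hlog2]
    exact h
  obtain ⟨c, C, hc, HL⟩ := hLY k hk δ hd0
  refine ⟨1 + A + C * 2 ^ c, fun N hN => ?_⟩
  have hN1 : (1 : ℝ) ≤ N := by exact_mod_cast hN
  have hN0 : (0 : ℝ) < N := by linarith
  have hlogN : 0 ≤ Real.log N := Real.log_nonneg hN1
  set t : ℝ := (N : ℝ) ^ (1 / 2 : ℝ) with ht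
  have ht0 : 0 < t := Real.rpow_pos_of_pos hN0 _
  set J : ℕ := ⌈δ * Real.log N / Real.log 2⌉₊ with hJ
  have hJ1 : (J : ℝ) ≤ δ * Real.log N / Real.log 2 + 1 :=
    (Nat.ceil_lt_add_one (by positivity)).le
  have hJ2 : (N : ℝ) ^ (1 / 2 + δ) ≤ 2 ^ J * t := by
    have h1 : (N : ℝ) ^ δ ≤ 2 ^ J := by
      have h2 : δ * Real.log N / Real.log 2 ≤ J := Nat.le_ceil _
      rw [div_le_iff₀ hlog2] at h2
      calc (N : ℝ) ^ δ = Real.exp (Real.log N * δ) := Real.rpow_def_of_pos hN0 _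
        _ ≤ Real.exp (J * Real.log 2) := Real.exp_le_exp.mpr (by linarith)
        _ = 2 ^ J := by rw [← Real.log_pow, Real.exp_log (by positivity)]
    rw [Real.rpow_add hN0, mul_comm]
    exact mul_le_mul_of_nonneg_right h1 ht0.le
  set S1 : Set (X k) := {a | t ≤ ‖f N a‖ ∧ ‖f N a‖ < 2 ^ J * t} with hS1
  set S2 : Set (X k) := {a | (N : ℝ) ^ (1 / 2 + δ) ≤ ‖f N a‖ ∧ ‖f N a‖ < 2 * N} with hS2
  have hmf : Measurable fun a : X k => ‖f N a‖ := (cont_f k N).norm.measurable
  have hm1 : MeasurableSet S1 :=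
    (measurableSet_le measurable_const hmf).inter (measurableSet_lt hmf measurable_const)
  have hm2 : MeasurableSet S2 :=
    (measurableSet_le measurable_const hmf).inter (measurableSet_lt hmf measurable_const)
  have hpt : ∀ a : X k, ‖f N a‖ ^ (2 * K) ≤ (N : ℝ) ^ K +
      (S1.indicator (fun a => ‖f N a‖ ^ (2 * K)) a +
        S2.indicator (fun a => ‖f N a‖ ^ (2 * K)) a) := by
    intro a
    have i1 : 0 ≤ S1.indicator (fun a => ‖f N a‖ ^ (2 * K)) a :=
      Set.indicator_nonneg (fun _ _ => by positivity) a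
    have i2 : 0 ≤ S2.indicator (fun a => ‖f N a‖ ^ (2 * K)) a :=
      Set.indicator_nonneg (fun _ _ => by positivity) a
    have i3 : 0 ≤ (N : ℝ) ^ K := by positivity
    by_cases h1 : ‖f N a‖ < t
    · have h2 : ‖f N a‖ ^ (2 * K) ≤ t ^ (2 * K) := pow_le_pow_left₀ (norm_nonneg _) h1.le _
      have h3 : t ^ (2 * K) = (N : ℝ) ^ K := by
        rw [ht, ← Real.rpow_natCast, ← Real.rpow_mul hN0.le, ← Real.rpow_natCast]
        congr 1
        push_cast
        ring
      linarith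
    · push Not at h1
      by_cases h2 : ‖f N a‖ < 2 ^ J * t
      · have h3 : a ∈ S1 := ⟨h1, h2⟩
        have h4 : S1.indicator (fun a => ‖f N a‖ ^ (2 * K)) a = ‖f N a‖ ^ (2 * K) :=
          Set.indicator_of_mem h3 _
        linarith
      · push Not at h2
        have h3 : a ∈ S2 := ⟨hJ2.trans h2, (norm_f_le N a).trans_lt (by linarith)⟩
        have h4 : S2.indicator (fun a => ‖f N a‖ ^ (2 * K)) a = ‖f N a‖ ^ (2 * K) :=
          Set.indicator_of_mem h3 _
        linarith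
  have hi := int_f k N (2 * K)
  have h5 : ∫ a : X k, ‖f N a‖ ^ (2 * K) ≤ (N : ℝ) ^ K +
      ((∫ a in S1, ‖f N a‖ ^ (2 * K)) + ∫ a in S2, ‖f N a‖ ^ (2 * K)) := by
    have h6 := integral_mono hi ((integrable_const ((N : ℝ) ^ K)).add
      ((hi.indicator hm1).add (hi.indicator hm2))) hpt
    refine h6.trans (le_of_eq ?_)
    have h7 := integral_add (μ := (volume : Measure (X k))) (integrable_const ((N : ℝ) ^ K))
      ((hi.indicator hm1).add (hi.indicator hm2))
    have h8 := integral_add (μ := (volume : Measure (X k))) (hi.indicator hm1) (hi.indicator hm2)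
    rw [integral_indicator hm1, integral_indicator hm2] at h8
    have h9 : ∫ _ : X k, (N : ℝ) ^ K = (N : ℝ) ^ K := by
      rw [integral_const, X_univ, one_smul]
    rw [← h8]
    refine h7.trans ?_
    rw [h9]
    rfl
  have h10 : ∫ a in S1, ‖f N a‖ ^ (2 * K) ≤ J * (A * (N : ℝ) ^ K) := by
    refine (dya (volume : Measure (X k)) (fun a => ‖f N a‖) hmf
      (fun a => norm_nonneg _) t ht0 J (2 * K)).trans ?_
    have h11 : ∀ j ∈ range J, (2 : ℝ) ^ (2 * K) * ((volume : Measure (X k)).real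
        {x | 2 ^ j * t ≤ ‖f N x‖} * (2 ^ j * t) ^ (2 * K)) ≤ A * (N : ℝ) ^ K := by
      intro j _
      set s : ℝ := 2 ^ j * t with hs
      have hs0 : 0 < s := by positivity
      have h12 := HW N (s / N) hN (by positivity)
      have h13 : {a : X k | s / N ≤ ‖u N a‖} = {a : X k | s ≤ ‖f N a‖} := by
        ext a
        simp only [Set.mem_setOf_eq, u, norm_div, Complex.norm_natCast]
        exact div_le_div_iff_of_pos_right hN0
      rw [h13] at h12
      have h14 : (volume : Measure (X k)).real {x | s ≤ ‖f N x‖} * s ^ (2 * K) =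
          ((N : ℝ) ^ K * (s / N) ^ (2 * K) * volume.real {a : X k | s ≤ ‖f N a‖}) *
            (N : ℝ) ^ K := by
        have h15 : (N : ℝ) ^ (2 * K) = (N : ℝ) ^ K * (N : ℝ) ^ K := by
          rw [two_mul, pow_add]
        rw [div_pow, h15]
        field_simp
      rw [h14, hA]
      calc (2 : ℝ) ^ (2 * K) * (((N : ℝ) ^ K * (s / N) ^ (2 * K) *
            volume.real {a : X k | s ≤ ‖f N a‖}) * (N : ℝ) ^ K) ≤
            (2 : ℝ) ^ (2 * K) * (CW * (N : ℝ) ^ K) := by
            refine mul_le_mul_of_nonneg_left (mul_le_mul_of_nonneg_right h12 ?_) ?_ <;> positivity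
        _ = 2 ^ (2 * K) * CW * (N : ℝ) ^ K := by ring
    refine (sum_le_sum h11).trans (le_of_eq ?_)
    rw [sum_const, card_range, nsmul_eq_mul]
  have h16 : ∫ a in S2, ‖f N a‖ ^ (2 * K) ≤ C * 2 ^ c * (N : ℝ) ^ K := by
    have h17 : (N : ℝ) ^ (1 / 2 + δ) ≤ 2 * N := by
      calc (N : ℝ) ^ (1 / 2 + δ) ≤ (N : ℝ) ^ (1 : ℝ) :=
            Real.rpow_le_rpow_of_exponent_le hN1 (by linarith)
        _ = N := Real.rpow_one _
        _ ≤ 2 * N := by linarith
    have h18 := (HL N (2 * N) hN h17).2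
    have h19 : (2 * (N : ℝ) / N) = 2 := by field_simp
    rw [h19] at h18
    refine h18.trans (le_of_eq (by ring))
  refine h5.trans ?_
  have h20 : (J : ℝ) * (A * (N : ℝ) ^ K) ≤ (ε * Real.log N + A) * (N : ℝ) ^ K := by
    have h21 : (J : ℝ) * A ≤ ε * Real.log N + A := by
      calc (J : ℝ) * A ≤ (δ * Real.log N / Real.log 2 + 1) * A :=
            mul_le_mul_of_nonneg_right hJ1 hA0.le
        _ = (δ / Real.log 2 * A) * Real.log N + A := by ring
        _ ≤ ε * Real.log N + A := by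
            have := mul_le_mul_of_nonneg_right hd2 hlogN
            linarith
    calc (J : ℝ) * (A * (N : ℝ) ^ K) = ((J : ℝ) * A) * (N : ℝ) ^ K := by ring
      _ ≤ _ := mul_le_mul_of_nonneg_right h21 (by positivity)
  calc (N : ℝ) ^ K + ((∫ a in S1, ‖f N a‖ ^ (2 * K)) + ∫ a in S2, ‖f N a‖ ^ (2 * K)) ≤
        (N : ℝ) ^ K + ((ε * Real.log N + A) * (N : ℝ) ^ K + C * 2 ^ c * (N : ℝ) ^ K) := by
        linarith
    _ = (ε * Real.log N + (1 + A + C * 2 ^ c)) * (N : ℝ) ^ K := by ring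

end Pool.Agent.H69.LVP
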