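import Pool.Agent.H24.LV.TargetsM

/-! Row LY of board lvp_modules. -/

set_option autoImplicit false

open Finset MeasureTheory

namespace Pool.Agent.H69.LVP

open Pool.Agent.H24.CL Pool.Agent.H24.LV

lemma cont_e : Continuous e := by
  unfold e
  exact continuous_subtype_val.comp AddCircle.continuous_toCircle

lemma norm_e (x : UnitAddCircle) : ‖e x‖ = 1 := by
  unfold e
  exact Circle.norm_coe _

lemma cont_f (k N : ℕ) : Continuous (f N : X k → ℂ) := by
  unfold f
  refine continuous_finset_sum _ fun n _ => cont_e.comp ?_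
  unfold P
  exact continuous_finset_sum _ fun i _ => (continuous_nsmul _).comp (continuous_apply i)

lemma norm_f_le {k : ℕ} (N : ℕ) (a : X k) : ‖f N a‖ ≤ N := by
  unfold f
  refine (norm_sum_le _ _).trans ?_
  simp [norm_e]

/-- Dyadic decomposition of a moment. -/
lemma dya {Ω : Type} [MeasurableSpace Ω] (μ : Measure Ω) [IsFiniteMeasure μ] (g : Ω → ℝ)
    (hg : Measurable g) (hg0 : ∀ x, 0 ≤ g x) (t : ℝ) (ht : 0 < t) (J p : ℕ) :
    ∫ x in {x | t ≤ g x ∧ g x < 2 ^ J * t}, g x ^ p ∂μ ≤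
      ∑ j ∈ range J, 2 ^ p * (μ.real {x | 2 ^ j * t ≤ g x} * (2 ^ j * t) ^ p) := by
  have hm : ∀ s : ℝ, MeasurableSet {x | s ≤ g x} := fun s => measurableSet_le measurable_const hg
  have hS : MeasurableSet {x | t ≤ g x ∧ g x < 2 ^ J * t} :=
    (hm t).inter (measurableSet_lt hg measurable_const)
  rw [← integral_indicator hS]
  have h1 : ∀ x, ({x | t ≤ g x ∧ g x < 2 ^ J * t}.indicator (fun x => g x ^ p) x : ℝ) ≤
      ∑ j ∈ range J, ({x | 2 ^ j * t ≤ g x}.indicator (fun _ => 2 ^ p * (2 ^ j * t) ^ p) x : ℝ) := by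
    intro x
    by_cases hx : x ∈ {x | t ≤ g x ∧ g x < 2 ^ J * t}
    · rw [Set.indicator_of_mem hx]
      obtain ⟨hx1, hx2⟩ := hx
      have h2 : ∀ J : ℕ, g x < 2 ^ J * t → ∃ j ∈ range J, 2 ^ j * t ≤ g x ∧ g x < 2 ^ (j + 1) * t := by
        intro J
        induction J with
        | zero =>
          intro h
          rw [pow_zero, one_mul] at h
          exact absurd hx1 (not_le.mpr h)
        | succ J ih =>
          intro h
          by_cases h3 : g x < 2 ^ J * t
          · obtain ⟨j, hj, hj1⟩ := ih h3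
            exact ⟨j, mem_range.mpr ((mem_range.mp hj).trans (Nat.lt_succ_self J)), hj1⟩
          · exact ⟨J, mem_range.mpr (Nat.lt_succ_self J), not_lt.mp h3, h⟩
      obtain ⟨j, hj, hj1, hj2⟩ := h2 J hx2
      have h4 : g x ^ p ≤ 2 ^ p * (2 ^ j * t) ^ p := by
        rw [← mul_pow]
        refine pow_le_pow_left₀ (hg0 x) (hj2.le.trans (le_of_eq ?_)) p
        ring
      refine h4.trans ?_
      have h5 := single_le_sum (f := fun j => ({x | 2 ^ j * t ≤ g x}.indicator
        (fun _ => 2 ^ p * (2 ^ j * t) ^ p) x : ℝ)) (s := range J)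
        (fun i _ => Set.indicator_nonneg (fun _ _ => by positivity) x) hj
      refine le_trans (le_of_eq ?_) h5
      exact (Set.indicator_of_mem (s := {x | 2 ^ j * t ≤ g x}) hj1
        (fun _ => (2 : ℝ) ^ p * (2 ^ j * t) ^ p)).symm
    · rw [Set.indicator_of_notMem hx]
      exact sum_nonneg fun i _ => Set.indicator_nonneg (fun _ _ => by positivity) x
  have h6 : ∀ j : ℕ, Integrable ({x | 2 ^ j * t ≤ g x}.indicator
      (fun _ => 2 ^ p * (2 ^ j * t) ^ p) : Ω → ℝ) μ := fun j =>
    (integrable_const _).indicator (hm _)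
  refine (integral_mono_of_nonneg (Filter.Eventually.of_forall fun x =>
    Set.indicator_nonneg (fun y _ => pow_nonneg (hg0 y) p) x)
    (integrable_finset_sum _ fun j _ => h6 j) (Filter.Eventually.of_forall h1)).trans ?_
  rw [integral_finset_sum _ fun j _ => h6 j]
  refine sum_le_sum fun j _ => ?_
  rw [integral_indicator (hm _), setIntegral_const, smul_eq_mul]
  exact le_of_eq (by ring)

theorem pf_LY (hFI : E_FI) : M_LY := by
  intro k hk δ hδ
  set δ' : ℝ := min δ (1 / 4) with hδ'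
  have hd0 : 0 < δ' := lt_min hδ (by norm_num)
  have hd1 : δ' ≤ δ := min_le_left _ _
  obtain ⟨c₁, C₁, hc₁, H⟩ := hFI k hk δ' hd0
  set K : ℕ := KN k with hK
  set C : ℝ := max C₁ 0 with hC
  have hC0 : 0 ≤ C := le_max_right _ _
  have hA : ∀ (N : ℕ) (T : ℝ), 1 ≤ N → (N : ℝ) ^ (1 / 2 + δ) ≤ T →
      volume.real {a : X k | T ≤ ‖f N a‖} * T ^ (2 * K) ≤ C * (N : ℝ) ^ K * (T / N) ^ (2 * c₁) := by
    intro N T hN hT
    have hN1 : (1 : ℝ) ≤ N := by exact_mod_cast hN
    have hN0 : (0 : ℝ) < N := by linarith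
    have hT0 : 0 < T := lt_of_lt_of_le (Real.rpow_pos_of_pos hN0 _) hT
    by_cases hTN : (N : ℝ) < T
    · have h1 : {a : X k | T ≤ ‖f N a‖} = ∅ := by
        ext a
        simp only [Set.mem_setOf_eq, Set.mem_empty_iff_false, iff_false, not_le]
        exact (norm_f_le N a).trans_lt hTN
      rw [h1, measureReal_empty, zero_mul]
      positivity
    · push Not at hTN
      have hM1 : 1 ≤ ((N : ℝ) / T) ^ 2 := one_le_pow₀ ((one_le_div hT0).mpr hTN)
      have hM2 : (((N : ℝ) / T) ^ 2) ^ (1 + δ') ≤ (N : ℝ) := by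
        have h2 : (N : ℝ) / T ≤ (N : ℝ) ^ (1 / 2 - δ') := by
          rw [div_le_iff₀ hT0]
          calc (N : ℝ) = (N : ℝ) ^ (1 / 2 - δ') * (N : ℝ) ^ (1 / 2 + δ') := by
                rw [← Real.rpow_add hN0]
                norm_num
            _ ≤ (N : ℝ) ^ (1 / 2 - δ') * T := by
                refine mul_le_mul_of_nonneg_left ?_ (by positivity)
                exact (Real.rpow_le_rpow_of_exponent_le hN1 (by linarith)).trans hT
        have h3 : ((N : ℝ) / T) ^ 2 ≤ (N : ℝ) ^ (1 - 2 * δ') := by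
          calc ((N : ℝ) / T) ^ 2 ≤ ((N : ℝ) ^ (1 / 2 - δ')) ^ 2 :=
                pow_le_pow_left₀ (by positivity) h2 2
            _ = (N : ℝ) ^ (1 - 2 * δ') := by
                rw [← Real.rpow_natCast, ← Real.rpow_mul hN0.le]
                congr 1
                push_cast
                ring
        calc (((N : ℝ) / T) ^ 2) ^ (1 + δ') ≤ ((N : ℝ) ^ (1 - 2 * δ')) ^ (1 + δ') :=
              Real.rpow_le_rpow (by positivity) h3 (by linarith)
          _ = (N : ℝ) ^ ((1 - 2 * δ') * (1 + δ')) := by rw [← Real.rpow_mul hN0.le]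
          _ ≤ (N : ℝ) ^ (1 : ℝ) := Real.rpow_le_rpow_of_exponent_le hN1 (by nlinarith)
          _ = N := Real.rpow_one _
      have h4 := H (((N : ℝ) / T) ^ 2) N hM1 hM2
      have hq : 0 < (N : ℝ) / T := by positivity
      have h5 : (((N : ℝ) / T) ^ 2) ^ (-(1 / 2 : ℝ)) = T / N := by
        rw [← Real.rpow_natCast, ← Real.rpow_mul hq.le]
        have h6 : (((2 : ℕ) : ℝ) * -(1 / 2)) = -1 := by norm_num
        rw [h6, Real.rpow_neg_one, inv_div]
      rw [h5] at h4
      have h7 : {a : X k | T / N ≤ ‖u N a‖} = {a : X k | T ≤ ‖f N a‖} := by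
        ext a
        simp only [Set.mem_setOf_eq, u, norm_div, Complex.norm_natCast]
        exact div_le_div_iff_of_pos_right hN0
      rw [h7] at h4
      have h8 : (((N : ℝ) / T) ^ 2) ^ ((K : ℝ) - c₁) = ((N : ℝ) / T) ^ (2 * K) * (T / N) ^ (2 * c₁) := by
        rw [← Real.rpow_natCast, ← Real.rpow_mul hq.le, ← Real.rpow_natCast, ← inv_div (N : ℝ) T,
          Real.inv_rpow hq.le, ← Real.rpow_neg hq.le, ← Real.rpow_add hq]
        congr 1
        push_cast
        ring
      rw [h8] at h4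
      have h9 : (N : ℝ) ^ K * volume.real {a : X k | T ≤ ‖f N a‖} ≤
          C * (((N : ℝ) / T) ^ (2 * K) * (T / N) ^ (2 * c₁)) :=
        h4.trans (mul_le_mul_of_nonneg_right (le_max_left _ _) (by positivity))
      have h10 : volume.real {a : X k | T ≤ ‖f N a‖} * T ^ (2 * K) =
          ((N : ℝ) ^ K * volume.real {a : X k | T ≤ ‖f N a‖}) * (T ^ (2 * K) / (N : ℝ) ^ K) := by
        field_simp
      have h11 : C * (N : ℝ) ^ K * (T / N) ^ (2 * c₁) =
          (C * (((N : ℝ) / T) ^ (2 * K) * (T / N) ^ (2 * c₁))) * (T ^ (2 * K) / (N : ℝ) ^ K) := by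
        have h12 : ((N : ℝ) / T) ^ (2 * K) * (T ^ (2 * K) / (N : ℝ) ^ K) = (N : ℝ) ^ K := by
          rw [div_pow, pow_mul (N : ℝ) 2 K, sq, mul_pow]
          field_simp
        calc C * (N : ℝ) ^ K * (T / N) ^ (2 * c₁) =
              C * (((N : ℝ) / T) ^ (2 * K) * (T ^ (2 * K) / (N : ℝ) ^ K)) * (T / N) ^ (2 * c₁) := by
              rw [h12]
          _ = _ := by ring
      rw [h10, h11]
      exact mul_le_mul_of_nonneg_right h9 (by positivity)
  set r : ℝ := (2 : ℝ) ^ (2 * c₁) with hr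
  have hr1 : 1 < r := Real.one_lt_rpow (by norm_num) (by linarith)
  refine ⟨2 * c₁, C + 2 ^ (2 * K) * C * (r / (r - 1)), by linarith, ?_⟩
  have hfac : 0 ≤ r / (r - 1) := div_nonneg (by linarith) (by linarith)
  intro N T hN hT
  have hN1 : (1 : ℝ) ≤ N := by exact_mod_cast hN
  have hN0 : (0 : ℝ) < N := by linarith
  set t : ℝ := (N : ℝ) ^ (1 / 2 + δ) with ht
  have ht0 : 0 < t := Real.rpow_pos_of_pos hN0 _
  have hT0 : 0 < T := lt_of_lt_of_le ht0 hT
  constructor
  · refine (hA N T hN hT).trans ?_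
    refine mul_le_mul_of_nonneg_right (mul_le_mul_of_nonneg_right ?_ (by positivity)) (by positivity)
    have : 0 ≤ 2 ^ (2 * K) * C * (r / (r - 1)) := by positivity
    linarith
  · have hex : ∃ J : ℕ, T ≤ 2 ^ J * t := by
      obtain ⟨J, hJ⟩ := pow_unbounded_of_one_lt (T / t) (one_lt_two)
      exact ⟨J, by rw [div_lt_iff₀ ht0] at hJ; exact hJ.le⟩
    classical
    set J : ℕ := Nat.find hex with hJ
    have hJ1 : T ≤ 2 ^ J * t := Nat.find_spec hex
    have h1 := dya (volume : Measure (X k)) (fun a => ‖f N a‖) (cont_f k N).norm.measurable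
      (fun a => norm_nonneg _) t ht0 J (2 * K)
    have hint : Integrable (fun a : X k => ‖f N a‖ ^ (2 * K)) volume := by
      refine Integrable.of_bound (C := (N : ℝ) ^ (2 * K))
        ((cont_f k N).norm.pow _).aestronglyMeasurable (Filter.Eventually.of_forall fun a => ?_)
      rw [Real.norm_of_nonneg (by positivity)]
      exact pow_le_pow_left₀ (norm_nonneg _) (norm_f_le N a) _
    have h2 : ∫ a in {a : X k | t ≤ ‖f N a‖ ∧ ‖f N a‖ < T}, ‖f N a‖ ^ (2 * K) ≤
        ∫ a in {a : X k | t ≤ ‖f N a‖ ∧ ‖f N a‖ < 2 ^ J * t}, ‖f N a‖ ^ (2 * K) := by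
      refine setIntegral_mono_set hint.integrableOn
        (Filter.Eventually.of_forall fun a => by positivity) ?_
      exact Filter.Eventually.of_forall fun a ha => ⟨ha.1, ha.2.trans_le hJ1⟩
    refine (h2.trans h1).trans ?_
    have h3 : ∑ j ∈ range J, 2 ^ (2 * K) * ((volume : Measure (X k)).real
          {x | 2 ^ j * t ≤ ‖f N x‖} * (2 ^ j * t) ^ (2 * K)) ≤
        ∑ j ∈ range J, 2 ^ (2 * K) * (C * (N : ℝ) ^ K * ((t / N) ^ (2 * c₁) * r ^ j)) := by
      refine sum_le_sum fun j _ => mul_le_mul_of_nonneg_left ?_ (by positivity)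
      have h4 := hA N (2 ^ j * t) hN (le_mul_of_one_le_left ht0.le (one_le_pow₀ (by norm_num)))
      refine h4.trans (le_of_eq ?_)
      have h5 : (2 ^ j * t / N) ^ (2 * c₁) = (t / N) ^ (2 * c₁) * r ^ j := by
        rw [mul_div_assoc, Real.mul_rpow (by positivity) (by positivity), hr,
          ← Real.rpow_natCast, ← Real.rpow_natCast, ← Real.rpow_mul (by norm_num),
          ← Real.rpow_mul (by norm_num), mul_comm (j : ℝ)]
        ring
      rw [h5]
    refine h3.trans ?_
    have h6 : ∑ j ∈ range J, 2 ^ (2 * K) * (C * (N : ℝ) ^ K * ((t / N) ^ (2 * c₁) * r ^ j)) =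
        2 ^ (2 * K) * (C * (N : ℝ) ^ K * ((t / N) ^ (2 * c₁) * ∑ j ∈ range J, r ^ j)) := by
      rw [mul_sum, mul_sum, mul_sum]
    rw [h6]
    have h7 : (t / N) ^ (2 * c₁) * ∑ j ∈ range J, r ^ j ≤ (T / N) ^ (2 * c₁) * (r / (r - 1)) := by
      rcases Nat.eq_zero_or_pos J with h0 | h0
      · rw [h0, range_zero, sum_empty, mul_zero]
        positivity
      · obtain ⟨j, hj⟩ : ∃ j, J = j + 1 := ⟨J - 1, by omega⟩
        have h8 : ¬ T ≤ 2 ^ j * t := Nat.find_min hex (by omega)
        push Not at h8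
        rw [hj, geom_sum_eq hr1.ne']
        have h9 : (r ^ (j + 1) - 1) / (r - 1) ≤ r ^ j * (r / (r - 1)) := by
          rw [pow_succ, ← mul_div_assoc]
          exact div_le_div_of_nonneg_right (by linarith) (by linarith)
        calc (t / N) ^ (2 * c₁) * ((r ^ (j + 1) - 1) / (r - 1)) ≤
              (t / N) ^ (2 * c₁) * (r ^ j * (r / (r - 1))) :=
              mul_le_mul_of_nonneg_left h9 (by positivity)
          _ = (2 ^ j * t / N) ^ (2 * c₁) * (r / (r - 1)) := by
              rw [mul_div_assoc, Real.mul_rpow (by positivity) (by positivity), hr,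
                ← Real.rpow_natCast, ← Real.rpow_natCast, ← Real.rpow_mul (by norm_num),
                ← Real.rpow_mul (by norm_num), mul_comm (j : ℝ)]
              ring
          _ ≤ (T / N) ^ (2 * c₁) * (r / (r - 1)) := by
              refine mul_le_mul_of_nonneg_right ?_ hfac
              refine Real.rpow_le_rpow (by positivity) ?_ (by linarith)
              exact div_le_div_of_nonneg_right h8.le hN0.le
    calc 2 ^ (2 * K) * (C * (N : ℝ) ^ K * ((t / N) ^ (2 * c₁) * ∑ j ∈ range J, r ^ j)) ≤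
          2 ^ (2 * K) * (C * (N : ℝ) ^ K * ((T / N) ^ (2 * c₁) * (r / (r - 1)))) := by
          gcongr
      _ = 2 ^ (2 * K) * C * (r / (r - 1)) * (N : ℝ) ^ K * (T / N) ^ (2 * c₁) := by ring
      _ ≤ (C + 2 ^ (2 * K) * C * (r / (r - 1))) * (N : ℝ) ^ K * (T / N) ^ (2 * c₁) := by
          gcongr
          linarith

end Pool.Agent.H69.LVP
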