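import Pool.Agent.H69.LVP.LG

/-! Row CP of board lvp_modules. -/

set_option autoImplicit false

open Finset MeasureTheory

namespace Pool.Agent.H69.LVP

open Pool.Agent.H24.CL Pool.Agent.H24.LV

/-- Comparison of two integrals of a function with values in an interval. -/
lemma cmp_sets {Ω : Type} [MeasurableSpace Ω] (μ : Measure Ω) [IsFiniteMeasure μ] (g : Ω → ℝ)
    (hg : Integrable g μ) (hg0 : ∀ x, 0 ≤ g x) (A B S : Set Ω) (hA : MeasurableSet A)
    (hB : MeasurableSet B) (hS : A \ B ⊆ S) (D : ℝ) (hD0 : 0 ≤ D) (hD : ∀ x, x ∉ A → g x ≤ D) :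
    |(∫ x in A, g x ∂μ) - ∫ x in B, g x ∂μ| ≤ (∫ x in S, g x ∂μ) + D * μ.real B := by
  have h1 := integral_inter_add_diff (s := A) (t := B) hB (hg.integrableOn (s := A))
  have h2 := integral_inter_add_diff (s := B) (t := A) hA (hg.integrableOn (s := B))
  rw [Set.inter_comm] at h2
  have h3 : ∫ x in A \ B, g x ∂μ ≤ ∫ x in S, g x ∂μ :=
    setIntegral_mono_set hg.integrableOn (Filter.Eventually.of_forall fun x => hg0 x)
      (Filter.Eventually.of_forall fun x hx => hS hx)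
  have h4 : ∫ x in B \ A, g x ∂μ ≤ D * μ.real B := by
    calc ∫ x in B \ A, g x ∂μ ≤ ∫ _ in B \ A, D ∂μ :=
          setIntegral_mono_on hg.integrableOn (integrable_const _).integrableOn (hB.diff hA)
            fun x hx => hD x hx.2
      _ = D * μ.real (B \ A) := by rw [setIntegral_const, smul_eq_mul, mul_comm]
      _ ≤ D * μ.real B := mul_le_mul_of_nonneg_left (measureReal_mono Set.diff_subset) hD0
  have h5 : 0 ≤ ∫ x in A \ B, g x ∂μ := integral_nonneg fun x => hg0 x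
  have h6 : 0 ≤ ∫ x in B \ A, g x ∂μ := integral_nonneg fun x => hg0 x
  rw [abs_le]
  constructor <;> linarith

lemma KN_pos (k : ℕ) (hk : 3 ≤ k) : 1 ≤ KN k := by
  unfold KN
  have h : 2 ≤ k * (k + 1) := by nlinarith
  omega

theorem pf_CP (hLY : M_LY) (hWI : M_WI) (hMJ : M_MJ) : M_CP := by
  intro k hk δ hδ hδ2
  obtain ⟨CA, hCA, HW⟩ := hWI k (by omega)
  obtain ⟨CB, hCB, HM⟩ := hMJ k (by omega)
  obtain ⟨cL, CL, hcL, HL⟩ := hLY k hk δ hδ
  have hKN := KN_pos k hk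
  set K : ℕ := KN k with hK
  have hK1 : (1 : ℝ) ≤ K := by exact_mod_cast hKN
  set C1 : ℝ := max CA CB with hC1
  have hA1 : CA ≤ C1 := le_max_left _ _
  have hB1 : CB ≤ C1 := le_max_right _ _
  have h11 : 1 ≤ C1 := hCA.trans hA1
  have hC0 : 0 < C1 := by linarith
  refine ⟨min (1 / (4 * C1)) (min (1 / 2 - δ) ((1 - 2 * δ) / (2 * C1))), ?_, ?_⟩
  · refine lt_min (by positivity) (lt_min (by linarith) (div_pos (by linarith) (by positivity)))
  intro v hv hvu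
  have hv1 : v ≤ 1 / (4 * C1) := hvu.trans (min_le_left _ _)
  have hv2 : v ≤ 1 / 2 - δ := hvu.trans ((min_le_right _ _).trans (min_le_left _ _))
  have hv3 : v ≤ (1 - 2 * δ) / (2 * C1) := hvu.trans ((min_le_right _ _).trans (min_le_right _ _))
  have hv1' : v * C1 ≤ 1 / 4 := by
    rw [le_div_iff₀ (by positivity)] at hv1
    linarith
  have hv3' : v * C1 ≤ (1 - 2 * δ) / 2 := by
    rw [le_div_iff₀ (by positivity)] at hv3
    linarith
  have hvC1 : v ≤ v * C1 := le_mul_of_one_le_right hv.le h11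
  have hv4 : v ≤ 1 / 4 := hvC1.trans hv1'
  set w : ℝ := v / (4 * C1) with hw
  have hw0 : 0 < w := by positivity
  have hwv : w ≤ v := div_le_self hv.le (by linarith)
  have hwC : 2 * w * C1 = v / 2 := by
    rw [hw]
    field_simp
    ring
  set c : ℝ := min (w * cL) (min ((K : ℝ) * (1 - 2 * δ) / 2) (3 / 4)) with hc
  have hc1 : c ≤ w * cL := min_le_left _ _
  have hc2 : c ≤ (K : ℝ) * (1 - 2 * δ) / 2 := (min_le_right _ _).trans (min_le_left _ _)
  have hc3 : c ≤ 3 / 4 := (min_le_right _ _).trans (min_le_right _ _)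
  have hc0 : 0 < c := by
    refine lt_min (by positivity) (lt_min ?_ (by norm_num))
    have : 0 < 1 - 2 * δ := by linarith
    positivity
  set N0 : ℕ := ⌈(2 * C1) ^ (2 / v)⌉₊ with hN0
  set F : ℕ → ℝ := fun n => |(n : ℝ) ^ K * (SS k ⌊(n : ℝ) ^ v⌋₊ * SI k ⌊(n : ℝ) ^ v⌋₊)| with hF
  refine ⟨c, max CL 0 + 2 * C1 + ((N0 : ℝ) ^ (2 * K) + ∑ n ∈ range (N0 + 1), F n), hc0, ?_⟩
  intro N hN
  have hN1 : (1 : ℝ) ≤ N := by exact_mod_cast hN
  have hNp : (0 : ℝ) < N := by linarith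
  have hD0 : 0 ≤ (N0 : ℝ) ^ (2 * K) + ∑ n ∈ range (N0 + 1), F n := by
    have : 0 ≤ ∑ n ∈ range (N0 + 1), F n := sum_nonneg fun n _ => abs_nonneg _
    positivity
  have hm0 : 0 ≤ max CL 0 := le_max_right _ _
  have hpw : ∀ x y : ℝ, x ≤ y → (N : ℝ) ^ x ≤ (N : ℝ) ^ y := fun x y h =>
    Real.rpow_le_rpow_of_exponent_le hN1 h
  have hpos : ∀ x : ℝ, 0 < (N : ℝ) ^ x := fun x => Real.rpow_pos_of_pos hNp x
  have hmf : Measurable fun a : X k => ‖f N a‖ := (cont_f k N).norm.measurable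
  set A : Set (X k) := {a | (N : ℝ) ^ (1 / 2 + δ) ≤ ‖f N a‖} with hA
  have hmA : MeasurableSet A := measurableSet_le measurable_const hmf
  have hi := int_f k N (2 * K)
  by_cases hbig : 2 * C1 ≤ (N : ℝ) ^ (v / 2)
  · -- large N
    set Q : ℕ := ⌊(N : ℝ) ^ v⌋₊ with hQ
    have hvv : (N : ℝ) ^ v = (N : ℝ) ^ (v / 2) * (N : ℝ) ^ (v / 2) := by
      rw [← Real.rpow_add hNp]
      congr 1
      ring
    have hq1 : 2 * C1 * (N : ℝ) ^ (v / 2) ≤ (N : ℝ) ^ v := by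
      rw [hvv]
      exact mul_le_mul_of_nonneg_right hbig (hpos _).le
    have hone : 1 ≤ (N : ℝ) ^ (v / 2) := Real.one_le_rpow hN1 (by linarith)
    have hQle : (Q : ℝ) ≤ (N : ℝ) ^ v := Nat.floor_le (hpos _).le
    have hQlt : (N : ℝ) ^ v < Q + 1 := Nat.lt_floor_add_one _
    have hone' : 1 ≤ C1 * (N : ℝ) ^ (v / 2) := one_le_mul_of_one_le_of_one_le h11 hone
    have hq2 : C1 * (N : ℝ) ^ (v / 2) ≤ Q := by linarith
    have hQ1 : 1 ≤ Q := by
      have : (1 : ℝ) ≤ Q := hone'.trans hq2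
      exact_mod_cast this
    have hQ1' : (1 : ℝ) ≤ Q := by exact_mod_cast hQ1
    have hvC : C1 * (N : ℝ) ^ (v * C1) ≤ N := by
      calc C1 * (N : ℝ) ^ (v * C1) ≤ (N : ℝ) ^ (v / 2) * (N : ℝ) ^ (v * C1) := by
            refine mul_le_mul_of_nonneg_right (by linarith) (hpos _).le
        _ = (N : ℝ) ^ (v / 2 + v * C1) := by rw [← Real.rpow_add hNp]
        _ ≤ (N : ℝ) ^ (1 : ℝ) := hpw _ _ (by linarith)
        _ = N := Real.rpow_one _
    have hBQ : CB * (Q : ℝ) ^ CB ≤ C1 * (N : ℝ) ^ (v * C1) := by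
      have h1 : (Q : ℝ) ^ CB ≤ (N : ℝ) ^ (v * C1) := by
        calc (Q : ℝ) ^ CB ≤ (Q : ℝ) ^ C1 := Real.rpow_le_rpow_of_exponent_le hQ1' hB1
          _ ≤ ((N : ℝ) ^ v) ^ C1 := Real.rpow_le_rpow (by positivity) hQle hC0.le
          _ = (N : ℝ) ^ (v * C1) := by rw [← Real.rpow_mul hNp.le]
      exact mul_le_mul hB1 h1 (by positivity) (by linarith)
    obtain ⟨hmB, hvolB, herr⟩ := HM N Q hQ1 (hBQ.trans hvC)
    -- large values
    have hM1 : (1 : ℝ) ≤ (N : ℝ) ^ (2 * w) := Real.one_le_rpow hN1 (by linarith)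
    have hMC : CA * ((N : ℝ) ^ (2 * w)) ^ CA ≤ C1 * (N : ℝ) ^ (v / 2) := by
      have h1 : ((N : ℝ) ^ (2 * w)) ^ CA ≤ (N : ℝ) ^ (v / 2) := by
        calc ((N : ℝ) ^ (2 * w)) ^ CA ≤ ((N : ℝ) ^ (2 * w)) ^ C1 :=
              Real.rpow_le_rpow_of_exponent_le hM1 hA1
          _ = (N : ℝ) ^ (v / 2) := by rw [← Real.rpow_mul hNp.le, hwC]
      exact mul_le_mul hA1 h1 (by positivity) (by linarith)
    have hNv : C1 * (N : ℝ) ^ (v / 2) ≤ N := by
      refine le_trans ?_ hvC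
      exact mul_le_mul_of_nonneg_left (hpw _ _ (by linarith)) hC0.le
    have hin : A \ Maj k N Q ⊆
        {a : X k | (N : ℝ) ^ (1 / 2 + δ) ≤ ‖f N a‖ ∧ ‖f N a‖ < (N : ℝ) ^ (1 - w)} := by
      rintro a ⟨ha1, ha2⟩
      refine ⟨ha1, ?_⟩
      by_contra h
      push Not at h
      refine ha2 (HW N Q ((N : ℝ) ^ (2 * w)) a hM1 (hMC.trans hq2) (hMC.trans hNv) ?_)
      rw [← Real.rpow_mul hNp.le]
      have h2 : 2 * w * -(1 / 2) = (1 - w) - 1 := by ring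
      rw [h2, Real.rpow_sub_one hNp.ne', u, norm_div, Complex.norm_natCast]
      exact div_le_div_of_nonneg_right h hNp.le
    have h1 := cmp_sets (volume : Measure (X k)) (fun a => ‖f N a‖ ^ (2 * K)) hi
      (fun a => by positivity) A (Maj k N Q) _ hmA hmB hin (((N : ℝ) ^ (1 / 2 + δ)) ^ (2 * K))
      (by positivity) (fun a ha => by
        have ha' : ‖f N a‖ ≤ (N : ℝ) ^ (1 / 2 + δ) := (not_le.mp ha).le
        exact pow_le_pow_left₀ (norm_nonneg _) ha' _)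
    have h2 := (HL N ((N : ℝ) ^ (1 - w)) hN (hpw _ _ (by linarith))).2
    have h3 : CL * (N : ℝ) ^ K * ((N : ℝ) ^ (1 - w) / N) ^ cL ≤
        max CL 0 * (N : ℝ) ^ ((K : ℝ) - c) := by
      have h4 : (N : ℝ) ^ (1 - w) / N = (N : ℝ) ^ (-w) := by
        rw [← Real.rpow_sub_one hNp.ne']
        congr 1
        ring
      rw [h4, ← Real.rpow_mul hNp.le, mul_assoc, ← Real.rpow_natCast (N : ℝ) K,
        ← Real.rpow_add hNp]
      exact mul_le_mul (le_max_left _ _) (hpw _ _ (by linarith)) (hpos _).le hm0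
    have h5 : ((N : ℝ) ^ (1 / 2 + δ)) ^ (2 * K) * volume.real (Maj k N Q) ≤
        C1 * (N : ℝ) ^ ((K : ℝ) - c) := by
      have h6 : ((N : ℝ) ^ (1 / 2 + δ)) ^ (2 * K) = (N : ℝ) ^ (2 * K * δ) * (N : ℝ) ^ K := by
        rw [← Real.rpow_natCast, ← Real.rpow_natCast, ← Real.rpow_mul hNp.le,
          ← Real.rpow_add hNp]
        congr 1
        push_cast
        ring
      calc ((N : ℝ) ^ (1 / 2 + δ)) ^ (2 * K) * volume.real (Maj k N Q) =
            (N : ℝ) ^ (2 * K * δ) * ((N : ℝ) ^ K * volume.real (Maj k N Q)) := by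
            rw [h6]
            ring
        _ ≤ (N : ℝ) ^ (2 * K * δ) * (C1 * (N : ℝ) ^ (v * C1)) :=
            mul_le_mul_of_nonneg_left (hvolB.trans hBQ) (hpos _).le
        _ = C1 * (N : ℝ) ^ (2 * K * δ + v * C1) := by
            rw [Real.rpow_add hNp]
            ring
        _ ≤ C1 * (N : ℝ) ^ ((K : ℝ) - c) := by
            refine mul_le_mul_of_nonneg_left (hpw _ _ ?_) hC0.le
            have h7 : 1 * (1 - 2 * δ) ≤ (K : ℝ) * (1 - 2 * δ) :=
              mul_le_mul_of_nonneg_right hK1 (by linarith)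
            linarith
    have h8 : CB * (Q : ℝ) ^ CB * (N : ℝ) ^ ((K : ℝ) - 1) ≤ C1 * (N : ℝ) ^ ((K : ℝ) - c) := by
      calc CB * (Q : ℝ) ^ CB * (N : ℝ) ^ ((K : ℝ) - 1) ≤
            C1 * (N : ℝ) ^ (v * C1) * (N : ℝ) ^ ((K : ℝ) - 1) :=
            mul_le_mul_of_nonneg_right hBQ (hpos _).le
        _ = C1 * (N : ℝ) ^ (v * C1 + ((K : ℝ) - 1)) := by
            rw [Real.rpow_add hNp]
            ring
        _ ≤ C1 * (N : ℝ) ^ ((K : ℝ) - c) :=
            mul_le_mul_of_nonneg_left (hpw _ _ (by linarith)) hC0.le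
    have h9 := abs_sub_le (∫ a in A, ‖f N a‖ ^ (2 * K)) (∫ a in Maj k N Q, ‖f N a‖ ^ (2 * K))
      ((N : ℝ) ^ K * (SS k Q * SI k Q))
    have h10 : |(∫ a in A, ‖f N a‖ ^ (2 * K)) - (N : ℝ) ^ K * (SS k Q * SI k Q)| ≤
        (max CL 0 + 2 * C1) * (N : ℝ) ^ ((K : ℝ) - c) := by
      have h12 : (max CL 0 + 2 * C1) * (N : ℝ) ^ ((K : ℝ) - c) =
        max CL 0 * (N : ℝ) ^ ((K : ℝ) - c) + C1 * (N : ℝ) ^ ((K : ℝ) - c) +
          C1 * (N : ℝ) ^ ((K : ℝ) - c) := by ring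
      rw [h12]
      linarith
    refine h10.trans (mul_le_mul_of_nonneg_right (by linarith) (hpos _).le)
  · -- small N
    push Not at hbig
    have hNN : N ≤ N0 := by
      have h1 : (N : ℝ) ≤ (2 * C1) ^ (2 / v) := by
        calc (N : ℝ) = ((N : ℝ) ^ (v / 2)) ^ (2 / v) := by
              rw [← Real.rpow_mul hNp.le]
              have h2 : v / 2 * (2 / v) = 1 := by field_simp
              rw [h2, Real.rpow_one]
          _ ≤ (2 * C1) ^ (2 / v) := Real.rpow_le_rpow (hpos _).le hbig.le (by positivity)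
      have h3 : (N : ℝ) ≤ N0 := h1.trans (Nat.le_ceil _)
      exact_mod_cast h3
    have h1 : |∫ a in A, ‖f N a‖ ^ (2 * K)| ≤ (N0 : ℝ) ^ (2 * K) := by
      rw [abs_of_nonneg (integral_nonneg fun a => by positivity)]
      have h2 : ∫ a in A, ‖f N a‖ ^ (2 * K) ≤ ∫ a : X k, ‖f N a‖ ^ (2 * K) :=
        setIntegral_le_integral hi (Filter.Eventually.of_forall fun a => by positivity)
      have h3 : ∫ a : X k, ‖f N a‖ ^ (2 * K) ≤ ∫ _ : X k, (N0 : ℝ) ^ (2 * K) := by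
        refine integral_mono hi (integrable_const _) fun a => ?_
        refine pow_le_pow_left₀ (norm_nonneg _) ((norm_f_le N a).trans ?_) _
        exact_mod_cast hNN
      have h4 : ∫ _ : X k, (N0 : ℝ) ^ (2 * K) = (N0 : ℝ) ^ (2 * K) := by
        rw [integral_const, X_univ, one_smul]
      linarith
    have h5 : |(N : ℝ) ^ K * (SS k ⌊(N : ℝ) ^ v⌋₊ * SI k ⌊(N : ℝ) ^ v⌋₊)| ≤
        ∑ n ∈ range (N0 + 1), F n :=
      single_le_sum (f := F) (fun n _ => abs_nonneg _) (mem_range.mpr (by omega))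
    have h6 : 1 ≤ (N : ℝ) ^ ((K : ℝ) - c) := Real.one_le_rpow hN1 (by linarith)
    have h7 := abs_sub (∫ a in A, ‖f N a‖ ^ (2 * K))
      ((N : ℝ) ^ K * (SS k ⌊(N : ℝ) ^ v⌋₊ * SI k ⌊(N : ℝ) ^ v⌋₊))
    have h8 : (N0 : ℝ) ^ (2 * K) + ∑ n ∈ range (N0 + 1), F n ≤
        max CL 0 + 2 * C1 + ((N0 : ℝ) ^ (2 * K) + ∑ n ∈ range (N0 + 1), F n) := by linarith
    calc |(∫ a in A, ‖f N a‖ ^ (2 * K)) -
          (N : ℝ) ^ K * (SS k ⌊(N : ℝ) ^ v⌋₊ * SI k ⌊(N : ℝ) ^ v⌋₊)| ≤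
          (N0 : ℝ) ^ (2 * K) + ∑ n ∈ range (N0 + 1), F n := by linarith
      _ ≤ max CL 0 + 2 * C1 + ((N0 : ℝ) ^ (2 * K) + ∑ n ∈ range (N0 + 1), F n) := h8
      _ ≤ _ := le_mul_of_one_le_right (by linarith) h6

end Pool.Agent.H69.LVP
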